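import Pool.Agent.helper66.WD.Spec

set_option autoImplicit false

universe u

namespace Pool.Agent.WD

open MvPolynomial Pool.Agent.helper92.VC

theorem LRX_dimun {n : ℕ} {K : Type u} [Field K] {w w' : ℕ} {S S' : Set (MvPolynomial (Fin n) K)}
    (h : DimP w S) (h' : DimP w' S') : DimP (w + w') (S ∪ S') := by
  obtain ⟨g, hg⟩ := h
  obtain ⟨g', hg'⟩ := h'
  refine ⟨Fin.append g g', ?_⟩
  rintro q (hq | hq)
  · refine Submodule.span_mono ?_ (hg hq)
    rintro _ ⟨i, rfl⟩
    exact ⟨Fin.castAdd w' i, Fin.append_left g g' i⟩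
  · refine Submodule.span_mono ?_ (hg' hq)
    rintro _ ⟨i, rfl⟩
    exact ⟨Fin.natAdd w i, Fin.append_right g g' i⟩

theorem LRX_un (hMNP : MNP_stmt.{u}) {n : ℕ} {K : Type u} [Field K] {w w' : ℕ} (l : List (Fin n)) :
    ∀ (S S' : Set (MvPolynomial (Fin n) K)), RP w l S → RP w' l S' → RP (w + w') l (S ∪ S') := by
  induction l with
  | nil =>
    intro S S' h h'
    exact LRX_dimun h h'
  | cons x s ih =>
    intro S S' h h'
    refine ⟨LRX_dimun h.1 h'.1, ?_⟩
    refine hMNP n K (w + w') (w + w') s _ _ le_rfl ?_ (ih _ _ h.2 h'.2)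
    rintro q ⟨p, hp | hp, j, rfl⟩
    · exact Or.inl ⟨p, hp, j, rfl⟩
    · exact Or.inr ⟨p, hp, j, rfl⟩

theorem LRX_one (hMNP : MNP_stmt.{u}) {n : ℕ} {K : Type u} [Field K] (l : List (Fin n)) :
    RP 1 l ({0, 1} : Set (MvPolynomial (Fin n) K)) := by
  have h0 : DimP 1 ({0, 1} : Set (MvPolynomial (Fin n) K)) := by
    refine ⟨fun _ => 1, ?_⟩
    rintro q (hq | hq)
    · rw [hq]
      exact Submodule.zero_mem _
    · rw [hq]
      exact Submodule.subset_span ⟨0, rfl⟩
  induction l with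
  | nil => exact h0
  | cons x s ih =>
    refine ⟨h0, ?_⟩
    refine hMNP n K 1 1 s _ _ le_rfl ?_ ih
    rintro q ⟨p, hp | hp, j, rfl⟩
    · left
      rw [hp]
      unfold cf
      rw [map_zero, Polynomial.coeff_zero]
    · rw [hp]
      unfold cf
      rw [map_one, Polynomial.coeff_one]
      split_ifs
      · right
        rfl
      · left
        rfl

theorem LRX_zero (hMNP : MNP_stmt.{u}) {n : ℕ} {K : Type u} [Field K] (l : List (Fin n)) :
    RP 0 l ({0} : Set (MvPolynomial (Fin n) K)) := by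
  have h0 : DimP 0 ({0} : Set (MvPolynomial (Fin n) K)) := by
    refine ⟨fun _ => 1, ?_⟩
    rintro q hq
    rw [Set.mem_singleton_iff.1 hq]
    exact Submodule.zero_mem _
  induction l with
  | nil => exact h0
  | cons x s ih =>
    refine ⟨h0, ?_⟩
    refine hMNP n K 0 0 s _ _ le_rfl ?_ ih
    rintro q ⟨p, hp, j, rfl⟩
    rw [Set.mem_singleton_iff.1 hp]
    unfold cf
    rw [map_zero, Polynomial.coeff_zero]
    rfl

theorem LRX (hMNP : MNP_stmt.{u}) (hSPP : SPP_stmt.{u}) (hUNP : UNP_stmt.{u})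
    (hPRP : PRP_stmt.{u}) : LRX_stmt.{u} := by
  intro n K _ l
  have span_le : ∀ (w : ℕ) (S S' : Set (MvPolynomial (Fin n) K)), RP w l S →
      S' ⊆ (Submodule.span K S : Set (MvPolynomial (Fin n) K)) → RP w l S' :=
    fun w S S' h h' => hMNP n K w w l _ _ le_rfl h' (hSPP n K w l S h)
  refine ⟨?_, ?_, ?_, ?_, ?_, ?_, ?_, ?_⟩
  · intro w w' D D' h hw hD hh
    refine hMNP n K w w' l _ _ hw ?_ hh
    rintro q ⟨j, hj, rfl⟩
    exact ⟨j, hj.trans hD, rfl⟩
  · intro w w' D g h hg hh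
    refine span_le _ _ _ (hPRP n K w w' l _ _ hg hh) ?_
    rintro q ⟨j, hj, rfl⟩
    rw [PowerSeries.coeff_mul]
    refine Submodule.sum_mem _ ?_
    intro ab hab
    have hab' := Finset.HasAntidiagonal.mem_antidiagonal.1 hab
    exact Submodule.subset_span ⟨_, ⟨ab.1, by omega, rfl⟩, _, ⟨ab.2, by omega, rfl⟩, rfl⟩
  · intro w m D h hh
    refine span_le _ _ _ (hUNP n K w m l (fun i => JJ D (h i)) hh) ?_
    rintro q ⟨j, hj, rfl⟩
    rw [map_sum]
    refine Submodule.sum_mem _ ?_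
    intro i _
    exact Submodule.subset_span (Set.mem_iUnion.2 ⟨i, j, hj, rfl⟩)
  · intro w w' D g h hg hh
    have h1 := LRX_un hMNP l _ _ hg hh
    constructor
    · refine span_le _ _ _ h1 ?_
      rintro q ⟨j, hj, rfl⟩
      rw [map_add]
      exact Submodule.add_mem _ (Submodule.subset_span (Or.inl ⟨j, hj, rfl⟩))
        (Submodule.subset_span (Or.inr ⟨j, hj, rfl⟩))
    · refine span_le _ _ _ h1 ?_
      rintro q ⟨j, hj, rfl⟩
      rw [map_sub]
      exact Submodule.sub_mem _ (Submodule.subset_span (Or.inl ⟨j, hj, rfl⟩))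
        (Submodule.subset_span (Or.inr ⟨j, hj, rfl⟩))
  · intro w D h hh
    refine span_le _ _ _ hh ?_
    rintro q ⟨j, hj, rfl⟩
    have e : PowerSeries.coeff j (dz h) = ((j : K) + 1) • PowerSeries.coeff (j + 1) h := by
      unfold dz
      rw [PowerSeries.coeff_derivative, MvPolynomial.smul_eq_C_mul]
      rw [map_add, map_natCast, map_one]
      ring
    rw [e]
    exact Submodule.smul_mem _ _ (Submodule.subset_span ⟨j + 1, by omega, rfl⟩)
  · intro w D h a hh
    refine span_le _ _ _ hh ?_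
    rintro q ⟨j, hj, rfl⟩
    rw [PowerSeries.coeff_C_mul, ← MvPolynomial.smul_eq_C_mul]
    exact Submodule.smul_mem _ _ (Submodule.subset_span ⟨j, hj, rfl⟩)
  · intro D
    refine hMNP n K 1 1 l _ _ le_rfl ?_ (LRX_one hMNP l)
    rintro q ⟨j, hj, rfl⟩
    rw [PowerSeries.coeff_one]
    split_ifs
    · right
      rfl
    · left
      rfl
  · intro w D
    refine hMNP n K 0 w l _ _ (Nat.zero_le _) ?_ (LRX_zero hMNP l)
    rintro q ⟨j, hj, rfl⟩
    rw [map_zero]
    rfl

end Pool.Agent.WD
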