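import Pool.Agent.helper66.WD.Spec

universe u

namespace Pool.Agent.WD

open MvPolynomial Pool.Agent.helper92.VC

theorem SM2_low_mul {K : Type u} [Field K] {n : ℕ} (a b : ℕ) (p q : MvPolynomial (Fin n) K)
    (hp : ∀ d, coeff d p ≠ 0 → a ≤ d.degree) (hq : ∀ d, coeff d q ≠ 0 → b ≤ d.degree) :
    ∀ d, coeff d (p * q) ≠ 0 → a + b ≤ d.degree := by
  intro d hd
  rw [MvPolynomial.coeff_mul] at hd
  obtain ⟨x, hx, hne⟩ := Finset.exists_ne_zero_of_sum_ne_zero hd
  have hx' := Finset.HasAntidiagonal.mem_antidiagonal.1 hx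
  have h1 := hp x.1 (left_ne_zero_of_mul hne)
  have h2 := hq x.2 (right_ne_zero_of_mul hne)
  rw [← hx', map_add]
  omega

theorem SM2_low_list {K : Type u} [Field K] {n : ℕ} (L : List (MvPolynomial (Fin n) K))
    (hL : ∀ p ∈ L, coeff 0 p = 0) : ∀ d, coeff d L.prod ≠ 0 → L.length ≤ d.degree := by
  induction L with
  | nil =>
    intro d _
    exact Nat.zero_le _
  | cons p L ih =>
    rw [List.prod_cons, List.length_cons, add_comm]
    refine SM2_low_mul 1 L.length p L.prod ?_
      (ih fun q hq => hL q (List.mem_cons_of_mem _ hq))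
    intro d hd
    by_contra hlt
    have h0 : d.degree = 0 := by omega
    rw [Finsupp.degree_eq_zero_iff] at h0
    apply hd
    rw [h0]
    exact hL p List.mem_cons_self

theorem SM2_coeff_shift {K : Type u} [Field K] {n : ℕ} (α : Fin n → K)
    (p : MvPolynomial (Fin n) K) : constantCoeff (shift α p) = eval α p := by
  unfold shift
  have e : (constantCoeff (σ := Fin n) (R := K)).comp
      ((aeval fun l => X l + C (α l) : MvPolynomial (Fin n) K →ₐ[K] MvPolynomial (Fin n) K) :
        MvPolynomial (Fin n) K →+* MvPolynomial (Fin n) K) = eval α := by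
    apply MvPolynomial.ringHom_ext
    · intro r
      simp
    · intro i
      simp
  have := RingHom.congr_fun e p
  simpa using this

theorem SM2_span {K : Type u} [Field K] {n c : ℕ} (D : ℕ)
    (g : Fin c → MvPolynomial (Fin n) K) (α : Fin n → K) (j : ℕ) (hj : j ≤ D)
    (q : MvPolynomial (Fin c) K) :
    ∀ L : List (MvPolynomial (Fin n) K),
      (∀ p ∈ L, ∃ i, p = shift α (g i) - C (eval α (g i))) →
      homogeneousComponent j
        (L.prod * aeval (fun i => shift α (g i) - C (eval α (g i))) q) ∈
        Submodule.span K (VV D g α) := by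
  induction q using MvPolynomial.induction_on with
  | C a =>
    intro L hL
    have e : L.prod * aeval (fun i => shift α (g i) - C (eval α (g i)))
        (C a : MvPolynomial (Fin c) K) = a • L.prod := by
      rw [aeval_C, MvPolynomial.smul_eq_C_mul, mul_comm]
      rfl
    rw [e, map_smul]
    refine Submodule.smul_mem _ _ ?_
    by_cases hlen : L.length ≤ D
    · exact Submodule.subset_span ⟨L, hL, hlen, j, hj, rfl⟩
    · have hz : homogeneousComponent j L.prod = 0 := by
        ext d
        rw [coeff_homogeneousComponent, coeff_zero]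
        split_ifs with hd
        · by_contra hne
          have := SM2_low_list L ?_ d hne
          · omega
          · intro p hp
            obtain ⟨i, rfl⟩ := hL p hp
            have h1 := SM2_coeff_shift α (g i)
            rw [MvPolynomial.constantCoeff_eq] at h1
            rw [coeff_sub, h1, coeff_zero_C, sub_self]
        · rfl
      rw [hz]
      exact Submodule.zero_mem _
  | add p q hp hq =>
    intro L hL
    rw [map_add, mul_add, map_add]
    exact Submodule.add_mem _ (hp L hL) (hq L hL)
  | mul_X p i hp =>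
    intro L hL
    have h := hp ((shift α (g i) - C (eval α (g i))) :: L) ?_
    · rw [List.prod_cons] at h
      rw [map_mul (aeval fun i => shift α (g i) - C (eval α (g i))) p (X i), aeval_X]
      have e : L.prod * ((aeval fun i => shift α (g i) - C (eval α (g i))) p *
          (shift α (g i) - C (eval α (g i)))) =
          (shift α (g i) - C (eval α (g i))) * L.prod *
            (aeval fun i => shift α (g i) - C (eval α (g i))) p := by ring
      rw [e]
      exact h
    · intro r hr
      rcases List.mem_cons.1 hr with rfl | hr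
      · exact ⟨i, rfl⟩
      · exact hL r hr

theorem SM2_shift_zero {K : Type u} [Field K] {n : ℕ} (p : MvPolynomial (Fin n) K) :
    shift (0 : Fin n → K) p = p := by
  have e : shift (0 : Fin n → K) = AlgHom.id K (MvPolynomial (Fin n) K) := by
    apply MvPolynomial.algHom_ext
    intro i
    unfold shift
    simp
  rw [e]
  rfl

theorem SM2 (hLIN : LIN_stmt.{u}) : SM2_stmt.{u} := by
  intro n K _ c D g α Q
  obtain ⟨v, hv⟩ : ∃ v : Fin c → MvPolynomial (Fin n) K,
    v = fun i => shift α (g i) - C (eval α (g i)) := ⟨_, rfl⟩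
  obtain ⟨q, hq⟩ : ∃ q : MvPolynomial (Fin c) K,
    q = aeval (fun i => X i + C (eval α (g i))) Q := ⟨_, rfl⟩
  have key : ∀ (j : ℕ), j ≤ D → ∀ r : MvPolynomial (Fin c) K,
      homogeneousComponent j (aeval v r) ∈ Submodule.span K (VV D g α) := by
    intro j hj r
    have := SM2_span D g α j hj r [] (by simp)
    rw [List.prod_nil, one_mul] at this
    rw [hv]
    exact this
  have hsq : shift α (aeval g Q) = aeval v q := by
    have e : ((shift α).comp (aeval g) : MvPolynomial (Fin c) K →ₐ[K] MvPolynomial (Fin n) K) =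
        (aeval v : MvPolynomial (Fin c) K →ₐ[K] MvPolynomial (Fin n) K).comp
          (aeval (fun i => X i + C (eval α (g i)))) := by
      apply MvPolynomial.algHom_ext
      intro i
      rw [AlgHom.comp_apply, AlgHom.comp_apply, aeval_X, aeval_X, map_add, aeval_X, aeval_C, hv]
      rw [MvPolynomial.algebraMap_eq]
      ring
    have := AlgHom.congr_fun e Q
    rw [AlgHom.comp_apply, AlgHom.comp_apply] at this
    rw [this, hq]
  have hco : ∀ j, PowerSeries.coeff j (line α (aeval g Q)) =
      homogeneousComponent j (aeval v q) := by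
    intro j
    rw [hLIN n K α _ j, hsq]
  have hl0 : ∀ (j : ℕ) (p : MvPolynomial (Fin n) K),
      PowerSeries.coeff j (line (0 : Fin n → K) p) = homogeneousComponent j p := by
    intro j p
    rw [hLIN n K 0 p j, SM2_shift_zero]
  have hh : line α (aeval g Q) = line (0 : Fin n → K) (aeval v q) := by
    ext1 j
    rw [hco, hl0]
  constructor
  · rintro _ ⟨j, hj, rfl⟩
    rw [hco]
    exact key j hj q
  · intro y hy
    rw [hh] at hy
    obtain ⟨q₀, hq₀⟩ : ∃ q₀ : K, q₀ = coeff 0 (aeval v q) := ⟨_, rfl⟩
    have hc0 : PowerSeries.constantCoeff (line (0 : Fin n → K) (aeval v q)) = C q₀ := by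
      rw [← PowerSeries.coeff_zero_eq_constantCoeff_apply, hl0, homogeneousComponent_zero, hq₀]
    have hne : q₀ ≠ 0 := by
      rintro h0
      have := congrArg PowerSeries.constantCoeff hy
      rw [map_mul, hc0, h0, map_zero, zero_mul, map_one] at this
      exact zero_ne_one this
    obtain ⟨r, hr⟩ : ∃ r : MvPolynomial (Fin c) K, r = 1 - C (q₀⁻¹) * q := ⟨_, rfl⟩
    obtain ⟨H, hH⟩ : ∃ H : PowerSeries (MvPolynomial (Fin n) K),
      H = line (0 : Fin n → K) (aeval v r) := ⟨_, rfl⟩
    have hlc : ∀ a : K, line (0 : Fin n → K) (aeval v (C a : MvPolynomial (Fin c) K)) =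
        PowerSeries.C (C a) := by
      intro a
      rw [← MvPolynomial.algebraMap_eq, AlgHom.commutes, AlgHom.commutes,
        PowerSeries.algebraMap_apply]
      rfl
    have hH1 : H = 1 - PowerSeries.C (C q₀⁻¹) * line (0 : Fin n → K) (aeval v q) := by
      rw [hH, hr, map_sub, map_sub, map_mul, map_mul, hlc, map_one, map_one]
    have hH0 : PowerSeries.constantCoeff H = 0 := by
      rw [hH1, map_sub, map_mul, hc0, PowerSeries.constantCoeff_C, ← C_mul, inv_mul_cancel₀ hne]
      simp
    have hX : (PowerSeries.X : PowerSeries (MvPolynomial (Fin n) K)) ^ (D + 1) ∣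
        H ^ (D + 1) * y :=
      Dvd.dvd.mul_right (pow_dvd_pow_of_dvd (PowerSeries.X_dvd_iff.2 hH0) _) _
    have hy1 : y = PowerSeries.C (C q₀⁻¹) * ∑ t ∈ Finset.range (D + 1), H ^ t +
        H ^ (D + 1) * y := by
      have h1 : (∑ t ∈ Finset.range (D + 1), H ^ t) * (1 - H) = 1 - H ^ (D + 1) :=
        geom_sum_mul_neg H (D + 1)
      have h2 : (1 - H) * y = PowerSeries.C (C q₀⁻¹) := by
        rw [hH1, sub_sub_cancel, mul_assoc, hy, mul_one]
      calc y = (1 - H ^ (D + 1)) * y + H ^ (D + 1) * y := by ring
        _ = (∑ t ∈ Finset.range (D + 1), H ^ t) * ((1 - H) * y) + H ^ (D + 1) * y := by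
          rw [← h1]; ring
        _ = _ := by rw [h2, mul_comm]
    have hq' : PowerSeries.C (C q₀⁻¹) * ∑ t ∈ Finset.range (D + 1), H ^ t =
        line (0 : Fin n → K) (aeval v (C q₀⁻¹ * ∑ t ∈ Finset.range (D + 1), r ^ t)) := by
      rw [map_mul, map_mul, hlc, map_sum, map_sum]
      congr 1
      refine Finset.sum_congr rfl fun t _ => ?_
      rw [map_pow, map_pow, hH]
    rintro _ ⟨j, hj, rfl⟩
    have hcj : PowerSeries.coeff j y = homogeneousComponent j
        (aeval v (C q₀⁻¹ * ∑ t ∈ Finset.range (D + 1), r ^ t)) := by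
      rw [hy1, map_add, PowerSeries.X_pow_dvd_iff.1 hX j (by omega), add_zero, hq', hl0]
    rw [hcj]
    exact key j hj _

end Pool.Agent.WD
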